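import Mathlib

namespace Pool.Agent.Results.MP_c20855_lc.NotEps

open Set Ordinal Order

/-- the real number whose binary digits are the `i`-th shift of `b` -/
noncomputable def a (b : ℕ → Bool) (i : ℕ) : ℝ :=
  ∑' n : ℕ, (if b (n + i) then 1 else 0) / 2 ^ (n + 1)

theorem term_le (b : ℕ → Bool) (i n : ℕ) :
    ((if b (n + i) then 1 else 0) / 2 ^ (n + 1) : ℝ) ≤ 1 / 2 / 2 ^ n := by
  rw [div_div, ← pow_succ']
  gcongr
  split_ifs <;> norm_num

theorem term_nn (b : ℕ → Bool) (i n : ℕ) :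
    (0 : ℝ) ≤ (if b (n + i) then 1 else 0) / 2 ^ (n + 1) := by
  split_ifs <;> positivity

theorem summ (b : ℕ → Bool) (i : ℕ) :
    Summable fun n : ℕ => ((if b (n + i) then 1 else 0) / 2 ^ (n + 1) : ℝ) :=
  Summable.of_nonneg_of_le (term_nn b i) (term_le b i) (summable_geometric_two' 1)

theorem a_nn (b : ℕ → Bool) (i : ℕ) : 0 ≤ a b i := tsum_nonneg (term_nn b i)

theorem a_le (b : ℕ → Bool) (i : ℕ) : a b i ≤ 1 :=
  ((summ b i).tsum_le_tsum (term_le b i) (summable_geometric_two' 1)).trans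
    (tsum_geometric_two' 1).le

theorem a_rec (b : ℕ → Bool) (i : ℕ) :
    a b i = (if b i then 1 else 0) / 2 + a b (i + 1) / 2 := by
  unfold a
  rw [(summ b i).tsum_eq_zero_add, ← tsum_div_const]
  congr 1
  · simp
  · refine tsum_congr fun n => ?_
    rw [div_div, ← pow_succ, show n + 1 + i = n + (i + 1) by ring]

theorem bound (b : ℕ → Bool) (α : Ordinal.{0}) (e : range (a b) ≃o Iio α) (hα : IsSuccLimit α) :
    ∃ β < α, α ≤ β * ω := by
  have nomax : ∀ x : range (a b), ∃ y, x < y := fun x =>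
    ⟨e.symm ⟨succ (e x).1, hα.succ_lt (e x).2⟩, by
      rw [← e.lt_iff_lt, e.apply_symm_apply]
      exact lt_succ (e x).1⟩
  have lt1 : ∀ i, a b i < 1 := fun i => by
    obtain ⟨⟨_, j, rfl⟩, h⟩ := nomax ⟨_, i, rfl⟩
    exact lt_of_lt_of_le h (a_le b j)
  have dbl : ∀ i, 1 / 2 ≤ a b i → a b (i + 1) = 2 * a b i - 1 := fun i h => by
    have h1 := a_rec b i
    have h2 := lt1 (i + 1)
    split_ifs at h1 <;> linarith
  have big : ∃ i, 1 / 2 ≤ a b i := by
    by_contra hn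
    push Not at hn
    have h0 : ∀ i, b i = false := fun i => by
      by_contra h
      have h1 := a_rec b i
      rw [if_pos (by simpa using h)] at h1
      linarith [hn i, a_nn b (i + 1)]
    have h1 : ∀ i, a b i = 0 := fun i => by simp [a, h0]
    obtain ⟨⟨_, j, rfl⟩, h⟩ := nomax ⟨_, 0, rfl⟩
    have h' : a b 0 < a b j := h
    rw [h1, h1] at h'
    exact lt_irrefl _ h'
  obtain ⟨i0, hi0⟩ := big
  let ρ : ℕ → Ordinal.{0} := fun i => (e ⟨_, i, rfl⟩).1
  have hρ : ∀ i j, ρ i < ρ j ↔ a b i < a b j := fun i j => by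
    change e _ < e _ ↔ _
    rw [e.lt_iff_lt]
    rfl
  have hs : ∀ γ < α, ∃ i, ρ i = γ := fun γ h => by
    obtain ⟨⟨_, i, rfl⟩, hx⟩ := e.surjective ⟨γ, h⟩
    exact ⟨i, congrArg Subtype.val hx⟩
  have small : ∀ i, a b i < 1 / 2 → ρ i < ρ i0 := fun i h => (hρ _ _).2 (h.trans_le hi0)
  have step : ∀ γ i, ρ i = γ → 1 / 2 ≤ a b i → ρ i ≤ ρ i0 + ρ (i + 1) := by
    intro γ
    induction γ using WellFoundedLT.induction with
    | _ γ ih =>
      rintro i rfl h
      refine le_of_forall_lt fun δ hδ => ?_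
      obtain ⟨j, rfl⟩ := hs δ (hδ.trans (e _).2)
      by_cases hj : a b j < 1 / 2
      · exact (small j hj).trans_le le_self_add
      · refine (ih _ hδ j rfl (not_lt.1 hj)).trans_lt ?_
        refine add_lt_add_right ((hρ _ _).2 ?_) _
        rw [dbl _ h, dbl _ (not_lt.1 hj)]
        linarith [(hρ _ _).1 hδ]
  have all : ∀ (k : ℕ) i, a b i < 1 - (1 / 2) ^ k → ρ i < ρ i0 * (k : Ordinal) := by
    intro k
    induction k with
    | zero => intro i h; exact absurd h (by simpa using a_nn b i)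
    | succ k ih =>
      intro i h
      have e1 : ρ i0 * ((k + 1 : ℕ) : Ordinal) = ρ i0 + ρ i0 * k := by
        rw [add_comm k 1, Nat.cast_add, mul_add, Nat.cast_one, mul_one]
      rw [e1]
      by_cases hi : a b i < 1 / 2
      · exact (small i hi).trans_le le_self_add
      · refine (step _ i rfl (not_lt.1 hi)).trans_lt (add_lt_add_right (ih _ ?_) _)
        rw [dbl _ (not_lt.1 hi)]
        rw [pow_succ] at h
        linarith
  refine ⟨ρ i0, (e _).2, le_of_forall_lt fun γ hγ => ?_⟩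
  obtain ⟨i, rfl⟩ := hs γ hγ
  obtain ⟨k, hk⟩ := exists_pow_lt_of_lt_one (sub_pos.2 (lt1 i)) (show (1 / 2 : ℝ) < 1 by norm_num)
  exact (all k i (by linarith)).trans_le (mul_le_mul_right (natCast_lt_omega0 k).le _)

theorem result (b : ℕ → Bool) (α : Ordinal.{0}) (h : Nonempty (range (a b) ≃o α.ToType)) :
    α ≠ epsilon 0 ∧ ∀ l : Ordinal.{0}, IsSuccLimit l → α ≠ ω ^ l := by
  have key : ∀ l : Ordinal.{0}, IsSuccLimit l → α ≠ ω ^ l := by
    rintro l hl rfl
    obtain ⟨e⟩ := h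
    obtain ⟨β, h1, h2⟩ := bound b _ (e.trans ToType.mk.symm) (isSuccLimit_opow one_lt_omega0 hl)
    obtain ⟨γ, h3, h4⟩ := (lt_opow_of_isSuccLimit omega0_ne_zero hl).1 h1
    have h5 : β * ω ≤ ω ^ succ γ := by
      rw [opow_succ]
      exact mul_le_mul_left h4.le _
    exact absurd (h2.trans h5) (not_le.2 ((opow_lt_opow_iff_right one_lt_omega0).2 (hl.succ_lt h3)))
  refine ⟨fun h' => key (epsilon 0) ?_ (h'.trans (omega0_opow_epsilon 0).symm), key⟩
  rw [← omega0_opow_epsilon 0]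
  exact isSuccLimit_opow_left isSuccLimit_omega0 (epsilon_pos 0).ne'

end Pool.Agent.Results.MP_c20855_lc.NotEps
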